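import Pool.Agent.H96Y.Asm
import Pool.Agent.H96Y.Way
import Pool.Agent.H96Y.Smo
import Pool.Agent.H96Y.Exc
import Pool.Agent.H96Y.App
import Pool.Agent.H96Y.Pad
import Pool.Agent.H96Y.StepY
import Pool.Agent.H96Y.Elim
import Pool.Agent.H96Y.Disc
import Pool.Agent.H96Y.Loc
import Pool.Agent.H96Y.Om
import Pool.Agent.H96Y.Cho
import Pool.Agent.H96Y.Pos
import Pool.Agent.H96Y.Cpt
import Pool.Agent.H96Y.Dim
import Pool.Agent.H96Y.Ker
import Pool.Agent.H96Y.ProjSp

/-!
# 100% of the fibrations in Fano complete intersections over an arbitrary base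

Let `Y` be a smooth projective variety over `ℚ` and let the closure of `Y(ℚ)` in the product of the
`Y(ℚ_v)`, over all the places `v` of `ℚ`, be open. (By the conjecture of Colliot-Thélène this holds
if `Y` is rationally connected: then the closure is the Brauer-Manin set, which is open since
`Br Y / Br ℚ` is finite. It is known, for example, for many conic bundles over `ℙ¹` and homogeneous
spaces of linear groups.) We fix an embedding of `Y` into `ℙᵐ` and consider the subvarieties `X_F` of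
`ℙⁿ × Y` which are defined by systems `F` of `s` forms of bidegrees `(d j, b j)` in the variables `x`
and `y`, with integral coefficients, where `d j ≥ 2`, `d 1 + ⋯ + d s ≤ n`, `n ≥ 3`, and where the
`b j ≥ 1` are arbitrary. The fibres of `X_F → Y` are Fano complete intersections in `ℙⁿ`; if `Y` is
rationally connected, then the smooth `X_F` are rationally connected.

We prove that for 100% of the systems `F`, ordered by the size `H` of their coefficients:

* `X_F` is smooth (of codimension `s` in `ℙⁿ × Y`);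
* all the adelic points of `X_F` which lie over the closure of `Y(ℚ)` are approximated by rational
  points of `X_F`, to precision `1 / M(H)` at the real place and at all the primes up to `M(H)`,
  where `M(H) → ∞`.

So the closure of `X_F(ℚ)` is the preimage of the closure of `Y(ℚ)`, to this precision. If the
Brauer-Manin obstruction to weak approximation is the only one for `Y`, then it is the only one for
100% of the `X_F`, and this includes cases where this obstruction is not trivial. If `Y(ℚ)` is not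
empty then a positive proportion of the `X_F` has adelic points over the closure of `Y(ℚ)`.

For `Y = ℙᵐ` the hypothesis on the closure is weak approximation for the projective space, which we
prove too: so 100% of the everywhere locally soluble `X_F` in `ℙⁿ × ℙᵐ` satisfy weak approximation to
precision `1 / M(H)`. This case is by helper48 (with the library `Pool/Agent/Z48BH`); the general case
extends the method to an arbitrary smooth base.

Idea of the proof. The rational points are found on the fibres over finitely many points `y` of `Y(ℚ)`.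
Let `F` be a system outside of a set of small density, where a certain polynomial `D(F)` in the
coefficients is divisible by high powers of small primes (or close to zero at the real place). All the
local points `(x, y)` of `X_F` can be moved to a local point on a smooth fibre, by a small change, and
this point can be followed when `F` and `y` vary in a neighbourhood whose size is uniform (compactness,
and elimination: for `D(F) ≠ 0` the points where the fibre is singular satisfy nontrivial equations in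
suitable coordinates of `Y`). The moved adelic point is still over the closure of `Y(ℚ)`, because the
closure is open, so it is close to a point `y` of `Y(ℚ)`. Thus for all the systems in a class (given by
congruences and by conditions at the real place) one can use the same `y`, out of a finite set. In the
class we change the coefficients of `F` by multiples of a fixed vector such that the fibre over `y`
changes by an arbitrary system of forms of degrees `d j`; by the geometry of numbers almost all of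
these fibres have rational points with the prescribed local conditions.
-/

set_option autoImplicit false

namespace Pool.Agent.Results.MP_12adaf_nt.FibrationsOverAnyBase

open MvPolynomial (aeval pderiv)

/-- The form `F` in the variables `x` (the first `n + 1` ones) and `y` (the last `m + 1` ones) is
bihomogeneous of bidegree `(d, b)`: all its monomials have degree `d` in `x` and degree `b` in
`y`. -/
def IsBihomogeneous {n m : ℕ} (d b : ℕ) (F : MvPolynomial (Fin (n + 1) ⊕ Fin (m + 1)) ℤ) : Prop :=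
  ∀ e, F.coeff e ≠ 0 → ∑ i, e (Sum.inl i) = d ∧ ∑ k, e (Sum.inr k) = b

/-- The systems of forms of bidegrees `(d j, b j)` in `n + 1` and `m + 1` variables whose
coefficients are integers of absolute value at most `H`. -/
def Systems {s : ℕ} (d b : Fin s → ℕ) (n m H : ℕ) :
    Set (Fin s → MvPolynomial (Fin (n + 1) ⊕ Fin (m + 1)) ℤ) :=
  {F | ∀ j, IsBihomogeneous (d j) (b j) (F j) ∧ ∀ e, |(F j).coeff e| ≤ (H : ℤ)}

/-- `y` is a point of the subvariety `Y` of `ℙᵐ` defined by the forms `G i`, over the field `K`. -/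
def IsBasePoint {g m : ℕ} (G : Fin g → MvPolynomial (Fin (m + 1)) ℤ) {K : Type} [Field K]
    (y : Fin (m + 1) → K) : Prop :=
  y ≠ 0 ∧ ∀ i, aeval y (G i) = 0

/-- The `G i` are forms and define a smooth subvariety `Y` of pure codimension `t` of `ℙᵐ`: for all
the points `y` of `Y` over fields of characteristic zero there are `t` of the forms whose gradients
are linearly independent at `y` and which generate the ideal of `Y` near `y`, that is, the ideal
which they generate contains the multiples `h * G i` of all the forms by a polynomial `h` with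
`h y ≠ 0`. -/
structure SmoothBase {g m : ℕ} (t : ℕ) (G : Fin g → MvPolynomial (Fin (m + 1)) ℤ) : Prop where
  homogeneous : ∀ i, ∃ e, (G i).IsHomogeneous e
  codim : t ≤ m
  smooth : ∀ (K : Type) [Field K] [CharZero K] (y : Fin (m + 1) → K), IsBasePoint G y →
    ∃ I : Fin t → Fin g,
      LinearIndependent K (fun (a : Fin t) (k : Fin (m + 1)) => aeval y (pderiv k (G (I a)))) ∧
      ∃ h : MvPolynomial (Fin (m + 1)) ℤ, aeval y h ≠ 0 ∧
        ∀ i, h * G i ∈ Ideal.span (Set.range fun a => G (I a))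

/-- `(x, y)` is a point of `X_F`, the subvariety `F 1 = ⋯ = F s = 0` of `ℙⁿ × Y`, over the field
`K`. -/
def IsPoint {s g n m : ℕ} (G : Fin g → MvPolynomial (Fin (m + 1)) ℤ)
    (F : Fin s → MvPolynomial (Fin (n + 1) ⊕ Fin (m + 1)) ℤ) {K : Type} [Field K]
    (x : Fin (n + 1) → K) (y : Fin (m + 1) → K) : Prop :=
  x ≠ 0 ∧ IsBasePoint G y ∧ ∀ j, aeval (Sum.elim x y) (F j) = 0

/-- `X_F` is smooth of codimension `s` in `ℙⁿ × Y`: at every point `(x, y)` of `X_F` over a field of
characteristic zero no nontrivial linear combination of the gradients of the forms `F j` is equal to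
a linear combination of the gradients of the forms `G i`. -/
def Smooth {s g n m : ℕ} (G : Fin g → MvPolynomial (Fin (m + 1)) ℤ)
    (F : Fin s → MvPolynomial (Fin (n + 1) ⊕ Fin (m + 1)) ℤ) : Prop :=
  ∀ (K : Type) [Field K] [CharZero K] (x : Fin (n + 1) → K) (y : Fin (m + 1) → K) (l : Fin s → K)
    (μ : Fin g → K), IsPoint G F x y → l ≠ 0 →
    ¬ ((∀ i, ∑ j, l j * aeval (Sum.elim x y) (pderiv (Sum.inl i) (F j)) = 0) ∧
      ∀ k, ∑ j, l j * aeval (Sum.elim x y) (pderiv (Sum.inr k) (F j)) =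
        ∑ i, μ i * aeval y (pderiv k (G i)))

/-- The point `x` of the projective space over `ℚ` is close to the real point `u`, to precision
`1 / M`: for suitable representatives of the point `x` the coordinates of `u - x` are at most
`‖u‖ / M`, where `‖u‖` is the largest absolute value of a coordinate of `u`. -/
def CloseReal {n : ℕ} (M : ℕ) (u : Fin n → ℝ) (x : Fin n → ℚ) : Prop :=
  ∃ c : ℝ, c ≠ 0 ∧ ∀ i, |u i - c * (x i : ℝ)| ≤ ‖u‖ / M

/-- The point `x` of the projective space over `ℚ` is close to the `p`-adic point `u`, to precision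
`1 / M`. -/
def ClosePadic {n p : ℕ} [Fact p.Prime] (M : ℕ) (u : Fin n → ℚ_[p]) (x : Fin n → ℚ) : Prop :=
  ∃ c : ℚ_[p], c ≠ 0 ∧ ∀ i, ‖u i - c * (x i : ℚ_[p])‖ ≤ ‖u‖ / M

/-- The points `u` and `u'` of the projective space over the real or `p`-adic field `K` are close,
to precision `1 / M`. -/
def Near {n : ℕ} {K : Type} [NormedField K] (M : ℕ) (u u' : Fin n → K) : Prop :=
  ∃ c : K, c ≠ 0 ∧ ∀ i, ‖u i - c * u' i‖ ≤ ‖u‖ / M

/-- `(v, v₀)` is an adelic point of `Y`: a real point `v₀` and `p`-adic points `v p` for all the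
primes `p`. -/
def IsAdelicPoint {g m : ℕ} (G : Fin g → MvPolynomial (Fin (m + 1)) ℤ)
    (v : ∀ (p : ℕ) [Fact p.Prime], Fin (m + 1) → ℚ_[p]) (v₀ : Fin (m + 1) → ℝ) : Prop :=
  (∀ (p : ℕ) [Fact p.Prime], IsBasePoint G (v p)) ∧ IsBasePoint G v₀

/-- The adelic point `(v, v₀)` is in the closure of `Y(ℚ)`: for all `M ≥ 1` there is a rational point
of `Y` which is close to `v₀` and to the `v p` for all the primes `p ≤ M`, to precision `1 / M`. -/
def InClosure {g m : ℕ} (G : Fin g → MvPolynomial (Fin (m + 1)) ℤ)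
    (v : ∀ (p : ℕ) [Fact p.Prime], Fin (m + 1) → ℚ_[p]) (v₀ : Fin (m + 1) → ℝ) : Prop :=
  ∀ M : ℕ, 1 ≤ M → ∃ y : Fin (m + 1) → ℚ, IsBasePoint G y ∧
    (∀ (p : ℕ) [Fact p.Prime], p ≤ M → ClosePadic M (v p) y) ∧ CloseReal M v₀ y

/-- The closure of `Y(ℚ)` is an open subset of the set of the adelic points of `Y`: for every adelic
point `(v, v₀)` in the closure there is a `w ≥ 1` such that all the adelic points of `Y` which are
near to it at the real place and at the primes `p ≤ w`, to precision `1 / w`, are in the closure. -/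
def OpenClosure {g m : ℕ} (G : Fin g → MvPolynomial (Fin (m + 1)) ℤ) : Prop :=
  ∀ (v : ∀ (p : ℕ) [Fact p.Prime], Fin (m + 1) → ℚ_[p]) (v₀ : Fin (m + 1) → ℝ),
    IsAdelicPoint G v v₀ → InClosure G v v₀ → ∃ w : ℕ, 1 ≤ w ∧
      ∀ (v' : ∀ (p : ℕ) [Fact p.Prime], Fin (m + 1) → ℚ_[p]) (v₀' : Fin (m + 1) → ℝ),
        IsAdelicPoint G v' v₀' → (∀ (p : ℕ) [Fact p.Prime], p ≤ w → Near w (v p) (v' p)) →
        Near w v₀ v₀' → InClosure G v' v₀'

/-- `X_F` has an adelic point over the closure of `Y(ℚ)`. -/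
def HasAdelicPoint {s g n m : ℕ} (G : Fin g → MvPolynomial (Fin (m + 1)) ℤ)
    (F : Fin s → MvPolynomial (Fin (n + 1) ⊕ Fin (m + 1)) ℤ) : Prop :=
  ∃ (u : ∀ (p : ℕ) [Fact p.Prime], Fin (n + 1) → ℚ_[p])
    (v : ∀ (p : ℕ) [Fact p.Prime], Fin (m + 1) → ℚ_[p]) (u₀ : Fin (n + 1) → ℝ)
    (v₀ : Fin (m + 1) → ℝ), (∀ (p : ℕ) [Fact p.Prime], IsPoint G F (u p) (v p)) ∧
    IsPoint G F u₀ v₀ ∧ InClosure G v v₀

/-- All the adelic points of `X_F` over the closure of `Y(ℚ)` are approximated by rational points of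
`X_F`, to precision `1 / M` at the real place and at the primes up to `M`: for all real points
`(u₀, v₀)` and `p`-adic points `(u p, v p)` of `X_F`, one for each prime `p`, such that `(v, v₀)` is
in the closure of `Y(ℚ)`, there is a rational point `(x, y)` of `X_F` which is close to `(u₀, v₀)`
and to the `(u p, v p)` for all the primes `p ≤ M`. -/
def WeakApproximation {s g n m : ℕ} (M : ℕ) (G : Fin g → MvPolynomial (Fin (m + 1)) ℤ)
    (F : Fin s → MvPolynomial (Fin (n + 1) ⊕ Fin (m + 1)) ℤ) : Prop :=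
  ∀ (u : ∀ (p : ℕ) [Fact p.Prime], Fin (n + 1) → ℚ_[p])
    (v : ∀ (p : ℕ) [Fact p.Prime], Fin (m + 1) → ℚ_[p])
    (u₀ : Fin (n + 1) → ℝ) (v₀ : Fin (m + 1) → ℝ),
    (∀ (p : ℕ) [Fact p.Prime], IsPoint G F (u p) (v p)) → IsPoint G F u₀ v₀ → InClosure G v v₀ →
    ∃ (x : Fin (n + 1) → ℚ) (y : Fin (m + 1) → ℚ), IsPoint G F x y ∧
      (∀ (p : ℕ) [Fact p.Prime], p ≤ M → ClosePadic M (u p) x ∧ ClosePadic M (v p) y) ∧
      CloseReal M u₀ x ∧ CloseReal M v₀ y

section
open Pool.Agent.Z48BH Pool.Agent.H96Y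

theorem ncard_eq {s n m : ℕ} (d b : Fin s → ℕ) (H : ℕ)
    (P : (Fin s → MvPolynomial (Fin (n + 1) ⊕ Fin (m + 1)) ℤ) → Prop)
    (P' : (Idx (Fin (n + 1)) (Fin (m + 1)) d b → ℤ) → Prop) (h : ∀ c, P (poly c) ↔ P' c) :
    ({F | F ∈ Systems d b n m H ∧ P F} : Set _).ncard =
      {c | c ∈ Box (Idx (Fin (n + 1)) (Fin (m + 1)) d b) H ∧ P' c}.ncard := by
  rw [← Set.ncard_image_of_injective _ (poly_inj (d := d) (b := b))]
  congr 1
  ext F
  simp only [Set.mem_ofPred_eq, Set.mem_image]
  constructor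
  · rintro ⟨hF, hP⟩
    have hpoly : poly (fun n' : Idx (Fin (n + 1)) (Fin (m + 1)) d b =>
        (F n'.1).coeff (exF n'.2)) = F := by
      funext j
      ext e
      by_cases he : ∃ m' : Mo (Fin (n + 1)) (Fin (m + 1)) (d j) (b j), exF m' = e
      · obtain ⟨m', rfl⟩ := he
        rw [coeff_poly_exF]
      · have h1 : (F j).coeff e = 0 := by
          by_contra hne
          obtain ⟨h1, h2⟩ := (hF j).1 e hne
          exact he (exists_exF h1 h2)
        rw [h1]
        by_contra hne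
        exact he (coeff_poly_ne hne)
    refine ⟨_, ⟨mem_Box.mpr fun n' => (hF n'.1).2 _, ?_⟩, hpoly⟩
    rw [← h, hpoly]
    exact hP
  · rintro ⟨c, ⟨hc, hP⟩, rfl⟩
    refine ⟨fun j => ⟨fun e he => ?_, fun e => ?_⟩, (h c).mpr hP⟩
    · obtain ⟨m', rfl⟩ := coeff_poly_ne he
      exact ⟨sum_mons m'.1, sum_mons m'.2⟩
    · by_cases he : (poly c j).coeff e = 0
      · rw [he, abs_zero]
        exact Int.natCast_nonneg H
      · obtain ⟨m', rfl⟩ := coeff_poly_ne he
        rw [coeff_poly_exF]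
        exact mem_Box.mp hc _

theorem isPoint_iff {s g n m : ℕ} {d b : Fin s → ℕ} {G : Fin g → MvPolynomial (Fin (m + 1)) ℤ}
    {K : Type} [Field K] (c : Idx (Fin (n + 1)) (Fin (m + 1)) d b → ℤ) (x : Fin (n + 1) → K)
    (y : Fin (m + 1) → K) :
    IsPoint G (poly c) x y ↔
      x ≠ 0 ∧ (y ≠ 0 ∧ OnY G y) ∧ ∀ j, V (fun n => ((c n : ℤ) : K)) (Sum.elim x y) j = 0 := by
  unfold IsPoint
  simp only [aeval_poly]
  exact Iff.rfl

theorem base_of {g m t : ℕ} {G : Fin g → MvPolynomial (Fin (m + 1)) ℤ} (h : SmoothBase t G) :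
    Base t G := by
  refine ⟨h.homogeneous, ?_, fun K _ _ y hy hY => ?_⟩
  · have := h.codim
    rw [Fintype.card_fin]
    omega
  · obtain ⟨I, h1, h2⟩ := h.smooth K y ⟨hy, hY⟩
    refine ⟨I, fun μ hμ => ?_, h2⟩
    by_contra hcon
    push Not at hcon
    rw [Fintype.linearIndependent_iff] at h1
    apply hμ
    funext a
    refine h1 μ ?_ a
    funext k
    rw [Finset.sum_apply]
    exact hcon k

theorem open_of {g m : ℕ} {G : Fin g → MvPolynomial (Fin (m + 1)) ℤ} (h : OpenClosure G) :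
    OpenPt G := by
  intro v v₀ hAd hIn
  obtain ⟨w, hw, h1⟩ := h v v₀ ⟨fun p _ => hAd.1 p, hAd.2⟩ (fun M hM => by
    obtain ⟨y, h1, h2, h3⟩ := hIn M hM
    exact ⟨y, ⟨h1, h2⟩, h3⟩)
  refine ⟨w, hw, fun v' v₀' hAd' h2 h3 M hM => ?_⟩
  obtain ⟨y, ⟨h4, h5⟩, h6⟩ := h1 v' v₀' ⟨fun p _ => hAd'.1 p, hAd'.2⟩ h2 h3 M hM
  exact ⟨y, h4, h5, h6⟩

theorem inCl_iff {g m : ℕ} {G : Fin g → MvPolynomial (Fin (m + 1)) ℤ}
    (v : ∀ (p : ℕ) [Fact p.Prime], Fin (m + 1) → ℚ_[p]) (v₀ : Fin (m + 1) → ℝ) :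
    InClosure G v v₀ ↔ InCl G v v₀ := by
  constructor
  · intro h M hM
    obtain ⟨y, ⟨h1, h2⟩, h3⟩ := h M hM
    exact ⟨y, h1, h2, h3⟩
  · intro h M hM
    obtain ⟨y, h1, h2, h3⟩ := h M hM
    exact ⟨y, ⟨h1, h2⟩, h3⟩

theorem smooth_iff {s g n m : ℕ} {d b : Fin s → ℕ} {G : Fin g → MvPolynomial (Fin (m + 1)) ℤ}
    (c : Idx (Fin (n + 1)) (Fin (m + 1)) d b → ℤ) : Smooth G (poly c) ↔ SmY G c := by
  unfold Smooth SmY
  simp only [isPoint_iff, aeval_pderiv_poly]
  constructor
  · intro h K _ _ x y l μ hx hy hl hYy hV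
    by_contra hcon
    push Not at hcon
    refine h K x y l (fun i => -μ i) ⟨hx, ⟨hy, hYy⟩, hV⟩ hl ⟨fun i => ?_, fun k => ?_⟩
    · have h1 := hcon (Sum.inl i)
      simp only [DG, Sum.elim_inl, mul_zero, Finset.sum_const_zero, add_zero] at h1
      exact h1
    · have h1 := hcon (Sum.inr k)
      simp only [DG, Sum.elim_inr] at h1
      simp only [neg_mul, Finset.sum_neg_distrib]
      exact eq_neg_of_add_eq_zero_left h1
  · rintro h K _ _ x y l μ ⟨hx, ⟨hy, hYy⟩, hV⟩ hl ⟨h1, h2⟩
    obtain ⟨v, hv⟩ := h K x y l (fun i => -μ i) hx hy hl hYy hV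
    apply hv
    rcases v with i | k
    · simp only [DG, Sum.elim_inl, mul_zero, Finset.sum_const_zero, add_zero]
      exact h1 i
    · simp only [DG, Sum.elim_inr, neg_mul, Finset.sum_neg_distrib]
      rw [h2 k, add_neg_cancel]

theorem els_iff {s g n m : ℕ} {d b : Fin s → ℕ} {G : Fin g → MvPolynomial (Fin (m + 1)) ℤ}
    (c : Idx (Fin (n + 1)) (Fin (m + 1)) d b → ℤ) : HasAdelicPoint G (poly c) ↔ ElsY G c := by
  unfold HasAdelicPoint ElsY
  simp only [isPoint_iff, inCl_iff]
  constructor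
  · rintro ⟨u, v, u₀, v₀, h1, ⟨h2, h3, h4⟩, h5⟩
    exact ⟨u, v, u₀, v₀, ⟨fun p _ => (h1 p).2.1, h3⟩, h5, fun p _ => ⟨(h1 p).1, (h1 p).2.2⟩, h2, h4⟩
  · rintro ⟨u, v, u₀, v₀, ⟨h1, h2⟩, h3, h4, h5, h6⟩
    exact ⟨u, v, u₀, v₀, fun p _ => ⟨(h4 p).1, h1 p, (h4 p).2⟩, ⟨h5, h2, h6⟩, h3⟩

theorem wa_iff {s g n m : ℕ} {d b : Fin s → ℕ} {G : Fin g → MvPolynomial (Fin (m + 1)) ℤ}
    (M : ℕ) (c : Idx (Fin (n + 1)) (Fin (m + 1)) d b → ℤ) :
    WeakApproximation M G (poly c) ↔ WAY G M c := by
  unfold WeakApproximation WAY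
  simp only [isPoint_iff, inCl_iff]
  constructor
  · intro h u v u₀ v₀ hAd hIn h1 h2 h3
    obtain ⟨x, y, ⟨e1, ⟨e2, e3⟩, e4⟩, e5⟩ := h u v u₀ v₀
      (fun p _ => ⟨(h1 p).1, hAd.1 p, (h1 p).2⟩) ⟨h2, hAd.2, h3⟩ hIn
    exact ⟨x, y, e1, e2, e3, e4, e5⟩
  · intro h u v u₀ v₀ h1 h2 hIn
    obtain ⟨x, y, e1, e2, e3, e4, e5⟩ := h u v u₀ v₀ ⟨fun p _ => (h1 p).2.1, h2.2.1⟩ hIn
      (fun p _ => ⟨(h1 p).1, (h1 p).2.2⟩) h2.1 h2.2.2
    exact ⟨x, y, ⟨e1, ⟨e2, e3⟩, e4⟩, e5⟩

end

theorem systems_finite {s : ℕ} (d b : Fin s → ℕ) (n m H : ℕ) : (Systems d b n m H).Finite := by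
  classical
  refine (((Pool.Agent.Z48BH.Box (Pool.Agent.Z48BH.Idx (Fin (n + 1)) (Fin (m + 1)) d b)
    H)).finite_toSet.image Pool.Agent.Z48BH.poly).subset ?_
  intro F hF
  refine ⟨fun n' => (F n'.1).coeff (Pool.Agent.Z48BH.exF n'.2), ?_, ?_⟩
  · exact Pool.Agent.Z48BH.mem_Box.mpr fun n' => (hF n'.1).2 _
  · funext j
    ext e
    by_cases he : ∃ m' : Pool.Agent.Z48BH.Mo (Fin (n + 1)) (Fin (m + 1)) (d j) (b j),
        Pool.Agent.Z48BH.exF m' = e
    · obtain ⟨m', rfl⟩ := he
      rw [Pool.Agent.Z48BH.coeff_poly_exF]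
    · have h1 : (F j).coeff e = 0 := by
        by_contra hne
        obtain ⟨h1, h2⟩ := (hF j).1 e hne
        exact he (Pool.Agent.Z48BH.exists_exF h1 h2)
      rw [h1]
      by_contra hne
      exact he (Pool.Agent.Z48BH.coeff_poly_ne hne)

/-- the theorem, without the last ratio -/
theorem general (s n m g t : ℕ) (d b : Fin s → ℕ) (G : Fin g → MvPolynomial (Fin (m + 1)) ℤ)
    (hs : 1 ≤ s) (hd : ∀ j, 2 ≤ d j) (hdn : ∑ j, d j ≤ n) (hn : 3 ≤ n) (hb : ∀ j, 1 ≤ b j)
    (hY : SmoothBase t G) (hopen : OpenClosure G) :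
    (∃ M : ℕ → ℕ, Filter.Tendsto M Filter.atTop Filter.atTop ∧
      Filter.Tendsto (fun H : ℕ =>
        (({F | F ∈ Systems d b n m H ∧ Smooth G F ∧ WeakApproximation (M H) G F} : Set _).ncard : ℝ) /
        ((Systems d b n m H).ncard : ℝ)) Filter.atTop (nhds 1)) ∧
    ((∃ y : Fin (m + 1) → ℚ, IsBasePoint G y) → ∃ c : ℝ, 0 < c ∧ ∀ᶠ H : ℕ in Filter.atTop,
      c * ((Systems d b n m H).ncard : ℝ) ≤
        (({F | F ∈ Systems d b n m H ∧ Smooth G F ∧ HasAdelicPoint G F} : Set _).ncard : ℝ)) := by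
  classical
  have hDISC := Pool.Agent.H96Y.t_DISC (Pool.Agent.H96Y.t_ELIM Pool.Agent.H96Y.t_KER)
  have hSMO := Pool.Agent.H96Y.t_SMO hDISC
  have hWA := Pool.Agent.H96Y.t_WA (Pool.Agent.H96Y.t_EXC hDISC
    (Pool.Agent.H96Y.t_LOC (Pool.Agent.H96Y.t_MOVE Pool.Agent.H96Y.t_OM)) Pool.Agent.H96Y.t_PAD
    Pool.Agent.H96Y.t_STEP Pool.Agent.H96Y.t_APP Pool.Agent.H96Y.t_CHO)
  have hPOS := Pool.Agent.H96Y.t_POS
  have hCPT := Pool.Agent.H96Y.t_CPT
  have hDIM := Pool.Agent.H96Y.t_DIM
  obtain ⟨e, he⟩ : ∃ e : Fin s → ℕ, ∀ j, d j = e j + 2 :=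
    ⟨fun j => d j - 2, fun j => by have := hd j; dsimp only; omega⟩
  obtain rfl : d = fun j => e j + 2 := funext he
  obtain ⟨h1, h2⟩ := Pool.Agent.Y716.D.dims hs hn hdn
  have hι : s + 1 ≤ Fintype.card (Fin (n + 1)) := by omega
  have hB := base_of hY
  obtain ⟨⟨M, hM, h3⟩, h4⟩ := Pool.Agent.H96Y.main_vec hSMO hWA hPOS e b G hB (hDIM _ _ _ _ hB)
    (hCPT _ _ _ hY.homogeneous (open_of hopen)) hb hι
    (Pool.Agent.Y716.D.class_all (Fin (n + 1)) hs h1 e h2)
    (Pool.Agent.Y716.D.pos_all (Fin (n + 1)) hs h1 e h2)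
  have e1 : ∀ H M : ℕ, ({F | F ∈ Systems (fun j => e j + 2) b n m H ∧ Smooth G F ∧
      WeakApproximation M G F} : Set _).ncard =
      {c | c ∈ Pool.Agent.Z48BH.Box (Pool.Agent.Z48BH.Idx (Fin (n + 1)) (Fin (m + 1))
        (fun j => e j + 2) b) H ∧ (Pool.Agent.H96Y.SmY G c ∧ Pool.Agent.H96Y.WAY G M c)}.ncard := by
    intro H M
    apply ncard_eq
    intro c
    rw [smooth_iff, wa_iff]
  have e2 : ∀ H : ℕ, ({F | F ∈ Systems (fun j => e j + 2) b n m H ∧ Smooth G F ∧
      HasAdelicPoint G F} : Set _).ncard =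
      {c | c ∈ Pool.Agent.Z48BH.Box (Pool.Agent.Z48BH.Idx (Fin (n + 1)) (Fin (m + 1))
        (fun j => e j + 2) b) H ∧ (Pool.Agent.H96Y.SmY G c ∧ Pool.Agent.H96Y.ElsY G c)}.ncard := by
    intro H
    apply ncard_eq
    intro c
    rw [smooth_iff, els_iff]
  have e3 : ∀ H : ℕ, (Systems (fun j => e j + 2) b n m H).ncard = (Pool.Agent.Z48BH.Box
        (Pool.Agent.Z48BH.Idx (Fin (n + 1)) (Fin (m + 1)) (fun j => e j + 2) b) H).card := by
    intro H
    have h5 := @ncard_eq s n m (fun j => e j + 2) b H (fun _ => True) (fun _ => True)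
      (fun _ => Iff.rfl)
    simp only [and_true] at h5
    rw [← Set.ncard_coe_finset]
    exact h5
  simp only [e1, e2, e3]
  exact ⟨⟨M, hM, h3⟩, fun ⟨y, hy⟩ => h4 ⟨y, hy.1, hy.2⟩⟩

/-- ratios of cardinalities -/
theorem ratio_tendsto {T S E W : ℕ → ℝ} {c : ℝ} (hc : 0 < c) (hT : ∀ H, 0 < T H)
    (h1 : Filter.Tendsto (fun H => S H / T H) Filter.atTop (nhds 1))
    (h2 : ∀ᶠ H in Filter.atTop, c * T H ≤ E H) (h3 : ∀ H, W H ≤ E H)
    (h4 : ∀ H, E H ≤ W H + (T H - S H)) :
    Filter.Tendsto (fun H => W H / E H) Filter.atTop (nhds 1) := by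
  have h5 : Filter.Tendsto (fun H => 1 - (1 - S H / T H) / c) Filter.atTop (nhds 1) := by
    have h6 : Filter.Tendsto (fun H => 1 - (1 - S H / T H) / c) Filter.atTop
        (nhds (1 - (1 - 1) / c)) := ((h1.const_sub 1).div_const c).const_sub 1
    simpa using h6
  refine tendsto_of_tendsto_of_tendsto_of_le_of_le' h5 tendsto_const_nhds ?_ ?_
  · filter_upwards [h2] with H hH
    have hT' := hT H
    have hE : 0 < E H := lt_of_lt_of_le (by positivity) hH
    have h7 : (1 - S H / T H) = (T H - S H) / T H := by field_simp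
    rw [h7, sub_le_iff_le_add, ← sub_le_iff_le_add', div_div]
    have h8 := h4 H
    have h9 : 0 ≤ T H - S H := by
      have := h3 H
      linarith
    have h10 : (1 : ℝ) - W H / E H ≤ (T H - S H) / E H := by
      rw [le_div_iff₀ hE, sub_mul, one_mul, div_mul_cancel₀ _ hE.ne']
      linarith
    refine h10.trans ?_
    apply div_le_div_of_nonneg_left h9 (by positivity)
    linarith [mul_comm c (T H)]
  · filter_upwards [h2] with H hH
    have hT' := hT H
    have hE : 0 < E H := lt_of_lt_of_le (by positivity) hH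
    rw [div_le_one hE]
    exact h3 H

/-- Part 1. Let `Y` be a smooth closed subvariety of pure codimension `t` of `ℙᵐ` over `ℚ`, defined by
the forms `G i`, such that the closure of `Y(ℚ)` in the set of the adelic points of `Y` is open. Let
`d j ≥ 2`, `b j ≥ 1` for `1 ≤ j ≤ s`, `s ≥ 1`, `d 1 + ⋯ + d s ≤ n`, `n ≥ 3`. For 100% of the systems `F`
of forms of bidegrees `(d j, b j)`, ordered by the size `H` of their coefficients, the variety `X_F` in
`ℙⁿ × Y` is smooth of codimension `s`, and all the adelic points of `X_F` over the closure of `Y(ℚ)` are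
approximated by rational points of `X_F`, to precision `1 / M(H)`, where `M(H) → ∞`. If `Y(ℚ)` is not
empty then a positive proportion of the `X_F` is smooth and has an adelic point over the closure of
`Y(ℚ)`, and 100% of these have the approximation property, so they have rational points.

Part 2. The projective space `Y = ℙᵐ` is smooth and all its adelic points are in the closure of
`ℙᵐ(ℚ)`. So Part 1 applies to it, and it says that 100% of the smooth and everywhere locally soluble
`X_F ⊂ ℙⁿ × ℙᵐ`, which are a positive proportion of all `X_F`, satisfy weak approximation to precision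
`1 / M(H)`. -/
theorem result :
    (∀ (s n m g t : ℕ) (d b : Fin s → ℕ) (G : Fin g → MvPolynomial (Fin (m + 1)) ℤ),
      1 ≤ s → (∀ j, 2 ≤ d j) → ∑ j, d j ≤ n → 3 ≤ n → (∀ j, 1 ≤ b j) → SmoothBase t G →
      OpenClosure G → ∃ M : ℕ → ℕ, Filter.Tendsto M Filter.atTop Filter.atTop ∧
        Filter.Tendsto (fun H : ℕ =>
          (({F | F ∈ Systems d b n m H ∧ Smooth G F ∧ WeakApproximation (M H) G F} : Set _).ncard :
            ℝ) / ((Systems d b n m H).ncard : ℝ)) Filter.atTop (nhds 1) ∧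
        ((∃ y : Fin (m + 1) → ℚ, IsBasePoint G y) →
          (∃ c : ℝ, 0 < c ∧ ∀ᶠ H : ℕ in Filter.atTop, c * ((Systems d b n m H).ncard : ℝ) ≤
            (({F | F ∈ Systems d b n m H ∧ Smooth G F ∧ HasAdelicPoint G F} : Set _).ncard : ℝ)) ∧
          Filter.Tendsto (fun H : ℕ =>
            (({F | F ∈ Systems d b n m H ∧ Smooth G F ∧ HasAdelicPoint G F ∧
              WeakApproximation (M H) G F} : Set _).ncard : ℝ) /
            (({F | F ∈ Systems d b n m H ∧ Smooth G F ∧ HasAdelicPoint G F} : Set _).ncard : ℝ))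
            Filter.atTop (nhds 1))) ∧
    ∀ (m : ℕ) (G : Fin 0 → MvPolynomial (Fin (m + 1)) ℤ), SmoothBase 0 G ∧ OpenClosure G ∧
      ∀ (v : ∀ (p : ℕ) [Fact p.Prime], Fin (m + 1) → ℚ_[p]) (v₀ : Fin (m + 1) → ℝ),
        IsAdelicPoint G v v₀ → InClosure G v v₀ := by
  refine ⟨fun s n m g t d b G hs hd hdn hn hb hY hopen => ?_, fun m G => ?_⟩
  · obtain ⟨⟨M, hM, h1⟩, h2⟩ := general s n m g t d b G hs hd hdn hn hb hY hopen
    refine ⟨M, hM, h1, fun hy => ⟨h2 hy, ?_⟩⟩
    obtain ⟨c, hc, h3⟩ := h2 hy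
    have hfin : ∀ H, (Systems d b n m H).Finite := fun H => systems_finite d b n m H
    refine ratio_tendsto hc (fun H => ?_) h1 h3 (fun H => ?_) (fun H => ?_)
    · have h4 : 0 < (Systems d b n m H).ncard := (Set.ncard_pos (hfin H)).mpr
        ⟨fun _ => 0, fun j => ⟨fun e he => absurd (MvPolynomial.coeff_zero e) he, fun e => by
          rw [MvPolynomial.coeff_zero, abs_zero]
          exact Int.natCast_nonneg H⟩⟩
      exact_mod_cast h4
    · have h4 : ({F | F ∈ Systems d b n m H ∧ Smooth G F ∧ HasAdelicPoint G F ∧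
          WeakApproximation (M H) G F} : Set _).ncard ≤
          ({F | F ∈ Systems d b n m H ∧ Smooth G F ∧ HasAdelicPoint G F} : Set _).ncard :=
        Set.ncard_le_ncard (fun F hF => ⟨hF.1, hF.2.1, hF.2.2.1⟩)
          ((hfin H).subset fun F hF => hF.1)
      exact_mod_cast h4
    · have h4 : ({F | F ∈ Systems d b n m H ∧ Smooth G F ∧ HasAdelicPoint G F} : Set _) ⊆
          {F | F ∈ Systems d b n m H ∧ Smooth G F ∧ HasAdelicPoint G F ∧
            WeakApproximation (M H) G F} ∪ (Systems d b n m H \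
          {F | F ∈ Systems d b n m H ∧ Smooth G F ∧ WeakApproximation (M H) G F}) := by
        intro F hF
        by_cases h : WeakApproximation (M H) G F
        · exact Or.inl ⟨hF.1, hF.2.1, hF.2.2, h⟩
        · exact Or.inr ⟨hF.1, fun h' => h h'.2.2⟩
      have h5 := (Set.ncard_le_ncard h4 ((hfin H).subset (by
        intro F hF
        rcases hF with hF | hF
        · exact hF.1
        · exact hF.1))).trans (Set.ncard_union_le _ _)
      have h6 : ({F | F ∈ Systems d b n m H ∧ Smooth G F ∧ WeakApproximation (M H) G F} :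
          Set _) ⊆ Systems d b n m H := fun F hF => hF.1
      have h7 := Set.ncard_diff_add_ncard_of_subset h6 (hfin H)
      have h8 : (((Systems d b n m H \ {F | F ∈ Systems d b n m H ∧ Smooth G F ∧
          WeakApproximation (M H) G F}) : Set _).ncard : ℝ) = ((Systems d b n m H).ncard : ℝ) -
          (({F | F ∈ Systems d b n m H ∧ Smooth G F ∧ WeakApproximation (M H) G F} :
          Set _).ncard : ℝ) := by
        rw [eq_sub_iff_add_eq]
        exact_mod_cast h7
      rw [← h8]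
      exact_mod_cast h5
  · have hcl : ∀ (v : ∀ (p : ℕ) [Fact p.Prime], Fin (m + 1) → ℚ_[p]) (v₀ : Fin (m + 1) → ℝ),
        IsAdelicPoint G v v₀ → InClosure G v v₀ := by
      intro v v₀ hv M hM
      obtain ⟨y, h1, h2, h3⟩ := Pool.Agent.H96Y.proj_wa v v₀ (fun p _ => (hv.1 p).1) hv.2.1 M hM
      exact ⟨y, ⟨h1, fun i => i.elim0⟩, h2, h3⟩
    refine ⟨⟨fun i => i.elim0, Nat.zero_le m, fun K _ _ y _ => ⟨fun a => a.elim0, ?_, 1, ?_,
      fun i => i.elim0⟩⟩, fun v v₀ _ _ => ⟨1, le_rfl, fun v' v₀' h _ _ => hcl v' v₀' h⟩, hcl⟩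
    · exact linearIndependent_empty_type
    · rw [map_one]
      exact one_ne_zero

end Pool.Agent.Results.MP_12adaf_nt.FibrationsOverAnyBase
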