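import Pool.Agent.H90Q.All3

/-!
# Weak approximation for 100% of the Fano cyclic covers of projective space over the rationals

Let `b ≥ 2`, `l ≥ 1` and let `f` be a form of degree `b l` in `n + 1` variables. The equation
`z ^ b = f(x)` defines a cyclic cover of degree `b` of `ℙⁿ`, ramified along the hypersurface `f = 0`; it
is a hypersurface of degree `b l` in the weighted projective space `ℙ(1, …, 1, l)`, and a Fano variety if
and only if `(b - 1) l ≤ n`: for `n = 2` these are the del Pezzo surfaces of degree two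
`z ^ 2 = f_4(x_0, x_1, x_2)`, the cubic surfaces `z ^ 3 = f_3(x_0, x_1, x_2)` and the quadrics
`z ^ 2 = f_2(x_0, x_1, x_2)`; for `n = 3` for example the quartic and the sextic double solids. We prove
that for all `n ≥ 2` and `(b - 1) l ≤ n`, among the smooth such covers with integral coefficients of
absolute value at most `H` which have points over the real numbers and over all the `p`-adic fields, a
proportion tending to `1` as `H → ∞` satisfies weak approximation to precision `1 / m(H)` at the real
place and at all the primes up to `m(H)`, where `m(H) → ∞`; in particular 100% of them have a rational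
point. A positive proportion of all the covers is smooth and has points over all completions.
-/

set_option autoImplicit false

namespace Pool.Agent.Results.MP_12adaf_nt.RandomCyclicCovers

/-- The forms of degree `d` in `n + 1` variables whose coefficients are integers of absolute value at
most `H`. -/
def Forms (d n H : ℕ) : Set (MvPolynomial (Fin (n + 1)) ℤ) :=
  {f | f.IsHomogeneous d ∧ ∀ m, |f.coeff m| ≤ (H : ℤ)}

/-- The cyclic cover `z ^ b = f(x)` of `ℙⁿ` is smooth: over every field of characteristic zero and at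
every point `(x, z)`, `x ≠ 0`, of the cover one of the partial derivatives of `z ^ b - f(x)` is not
zero. -/
def Smooth (b : ℕ) {n : ℕ} (f : MvPolynomial (Fin (n + 1)) ℤ) : Prop :=
  ∀ (K : Type) [Field K] [CharZero K] (x : Fin (n + 1) → K) (z : K), x ≠ 0 →
    MvPolynomial.aeval x f = z ^ b →
    (∃ i, MvPolynomial.aeval x (MvPolynomial.pderiv i f) ≠ 0) ∨ (b : K) * z ^ (b - 1) ≠ 0

/-- The cover `z ^ b = f(x)` has points over the real numbers and over all the `p`-adic fields. -/
def LocallySoluble (b : ℕ) {n : ℕ} (f : MvPolynomial (Fin (n + 1)) ℤ) : Prop :=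
  (∃ (x : Fin (n + 1) → ℝ) (z : ℝ), x ≠ 0 ∧ MvPolynomial.aeval x f = z ^ b) ∧
    ∀ (p : ℕ) [Fact p.Prime], ∃ (x : Fin (n + 1) → ℚ_[p]) (z : ℚ_[p]), x ≠ 0 ∧
      MvPolynomial.aeval x f = z ^ b

/-- Weak approximation for the cover `z ^ b = f(x)`, `f` a form of degree `b l` with coefficients of
size at most `H`, to precision `1 / m` at the real place and at the primes up to `m`: for all real points
`(y, u)` and `p`-adic points `(x p, z p)` of the cover, one for each prime `p`, there is a rational point
`(a, w)` of the cover such that, for suitable representatives `(c a, c ^ l w)` of it, the coordinates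
of `x p - c a` have absolute value at most `‖x p‖ / m` and `z p - c ^ l w` has absolute value at most
`‖x p‖ ^ l / m` for all the primes `p ≤ m`, and the coordinates of `y - c a` are at most `‖y‖ / m`
and `u - c ^ l w` is at most `H ^ (1 / b) ‖y‖ ^ l / m` (`‖y‖` being the largest absolute value of a
coordinate; `H ^ (1 / b) ‖y‖ ^ l` is the natural size of `u`). -/
def WeakApproximation (b l m : ℕ) (H : ℝ) {n : ℕ} (f : MvPolynomial (Fin (n + 1)) ℤ) : Prop :=
  ∀ (x : ∀ (p : ℕ) [Fact p.Prime], Fin (n + 1) → ℚ_[p])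
    (z : ∀ (p : ℕ) [Fact p.Prime], ℚ_[p]) (y : Fin (n + 1) → ℝ) (u : ℝ),
    (∀ (p : ℕ) [Fact p.Prime], x p ≠ 0 ∧ MvPolynomial.aeval (x p) f = z p ^ b) → y ≠ 0 →
    MvPolynomial.aeval y f = u ^ b →
    ∃ (a : Fin (n + 1) → ℚ) (w : ℚ), a ≠ 0 ∧ MvPolynomial.aeval a f = w ^ b ∧
      (∀ (p : ℕ) [Fact p.Prime], p ≤ m → ∃ c : ℚ_[p], c ≠ 0 ∧
        (∀ i, ‖x p i - c * (a i : ℚ_[p])‖ ≤ ‖x p‖ / m) ∧
        ‖z p - c ^ l * (w : ℚ_[p])‖ ≤ ‖x p‖ ^ l / m) ∧
      ∃ c : ℝ, c ≠ 0 ∧ (∀ i, |y i - c * (a i : ℝ)| ≤ ‖y‖ / m) ∧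
        |u - c ^ l * (w : ℝ)| ≤ H ^ (1 / (b : ℝ)) * ‖y‖ ^ l / m

/-- Let `n ≥ 2`, `b ≥ 2`, `l ≥ 1` and `(b - 1) l ≤ n`. There is a function `m` tending to infinity such
that 100% of the everywhere locally soluble smooth cyclic covers `z ^ b = f(x)` of `ℙⁿ`, `f` of degree
`b l`, of height at most `H` satisfy weak approximation to precision `1 / m(H)` at the real place and at
the primes up to `m(H)`; and a positive proportion of all `f` defines a smooth cover with points over
all completions. -/
theorem result (n b l : ℕ) (hn : 2 ≤ n) (hb : 2 ≤ b) (hl : 1 ≤ l) (hF : (b - 1) * l ≤ n) :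
    (∃ m : ℕ → ℕ, Filter.Tendsto m Filter.atTop Filter.atTop ∧
      Filter.Tendsto (fun H : ℕ =>
        (({f | f ∈ Forms (b * l) n H ∧ Smooth b f ∧ LocallySoluble b f ∧
          WeakApproximation b l (m H) H f} : Set _).ncard : ℝ) /
        (({f | f ∈ Forms (b * l) n H ∧ Smooth b f ∧ LocallySoluble b f} : Set _).ncard : ℝ))
      Filter.atTop (nhds 1)) ∧
    ∃ c : ℝ, 0 < c ∧ ∀ᶠ H : ℕ in Filter.atTop,
      c * ((Forms (b * l) n H).ncard : ℝ) ≤
        (({f | f ∈ Forms (b * l) n H ∧ Smooth b f ∧ LocallySoluble b f} : Set _).ncard : ℝ) := by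
  have h2 : 2 ≤ b * l := by nlinarith
  obtain ⟨e, he⟩ : ∃ e, e + 2 = b * l := ⟨b * l - 2, by omega⟩
  have hbl : b * l = (b - 1) * l + l := by
    obtain ⟨c, rfl⟩ : ∃ c, b = c + 1 := ⟨b - 1, by omega⟩
    rw [Nat.add_sub_cancel]; ring
  have hC : Pool.Agent.H90Q.S_CLASS (Fin (n + 1)) e b l := by
    rcases Nat.eq_or_lt_of_le hn with h2n | h3n
    · subst h2n
      exact Pool.Agent.H90Q.class_cov3 e b l hb hl he hF
    · exact Pool.Agent.H90Q.class_cov (Fin (n + 1)) (by rw [Fintype.card_fin]; omega) e b l hb hl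
        he (by rw [Fintype.card_fin]; omega)
  have key := Pool.Agent.H90Q.main_of_class (Fin (n + 1)) (by rw [Fintype.card_fin]; omega) e b l
    hb hl he hC
  rw [he] at key
  exact key

end Pool.Agent.Results.MP_12adaf_nt.RandomCyclicCovers
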