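import Pool.Agent.DPO.MainS

/-!
# Weak approximation for 100% of the del Pezzo surfaces of degree 1 over the rational numbers
-/

namespace Pool.Agent.Results.MP_12adaf_nt.RandomDelPezzoDegreeOne

/-- The value `∑ g i U ^ (d - i) V ^ i` at `(u, v)` of the binary form of degree `d` with the
coefficients `g 0, …, g d`. -/
def form {d : ℕ} {R : Type*} [CommRing R] (g : Fin (d + 1) → ℤ) (u v : R) : R :=
  ∑ i : Fin (d + 1), (g i : R) * u ^ (d - (i : ℕ)) * v ^ (i : ℕ)

/-- `z = (u, v, x, y)` is a point over the field `K`, different from the point `(0 : 0 : 1 : 1)`, of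
the surface `y ^ 2 = x ^ 3 + a (u, v) x + f (u, v)` in the weighted projective space with the weights
`1, 1, 2, 3`; `a` is a binary quartic and `f` a binary sextic form. -/
def IsPoint {K : Type*} [Field K] (a : Fin 5 → ℤ) (f : Fin 7 → ℤ) (z : Fin 4 → K) : Prop :=
  (z 0 ≠ 0 ∨ z 1 ≠ 0) ∧ z 3 ^ 2 = z 2 ^ 3 + form a (z 0) (z 1) * z 2 + form f (z 0) (z 1)

/-- The equation `y ^ 2 - (x ^ 3 + a (u, v) x + f (u, v))` in the variables `u, v, x, y`. -/
noncomputable def equation (a : Fin 5 → ℤ) (f : Fin 7 → ℤ) : MvPolynomial (Fin 4) ℤ :=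
  MvPolynomial.X 3 ^ 2 - (MvPolynomial.X 2 ^ 3 +
    form a (MvPolynomial.X 0) (MvPolynomial.X 1) * MvPolynomial.X 2 +
    form f (MvPolynomial.X 0) (MvPolynomial.X 1))

/-- The surface `y ^ 2 = x ^ 3 + a (u, v) x + f (u, v)` is smooth, hence a del Pezzo surface of
degree 1: at every point over `ℂ` (the point `(0 : 0 : 1 : 1)` included) some partial derivative of
the equation is not zero. (The singular points of the weighted projective space have `u = v = 0` and
`x = 0` or `y = 0`; they are not on the surface.) -/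
def Smooth (a : Fin 5 → ℤ) (f : Fin 7 → ℤ) : Prop :=
  ∀ z : Fin 4 → ℂ, z ≠ 0 → MvPolynomial.aeval z (equation a f) = 0 →
    ∃ i, MvPolynomial.aeval z (MvPolynomial.pderiv i (equation a f)) ≠ 0

/-- The weights of the coordinates `u, v, x, y`. -/
def weight : Fin 4 → ℕ := ![1, 1, 2, 3]

/-- The natural sizes of the coordinates at the real place, if the coefficients of `a` and `f` have
the sizes `H ^ 4` and `H ^ 6`. -/
noncomputable def size (H : ℝ) : Fin 4 → ℝ := ![1, 1, H ^ 2, H ^ 3]

/-- After the scaling with `β` the coordinates of the `p`-adic vector `Z` are integral, one is a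
unit. -/
def Normalized (p : ℕ) [Fact p.Prime] (β : ℚ_[p]) (Z : Fin 4 → ℚ_[p]) : Prop :=
  (∀ i, ‖β ^ weight i * Z i‖ ≤ 1) ∧ ∃ i, ‖β ^ weight i * Z i‖ = 1

/-- After the scaling with `β` the coordinates of the real vector `W` are at most of their natural
sizes, with one equality. -/
def NormalizedReal (H β : ℝ) (W : Fin 4 → ℝ) : Prop :=
  (∀ i, |β ^ weight i * W i| ≤ size H i) ∧ ∃ i, |β ^ weight i * W i| = size H i

/-- Weak approximation with the precision `1 / m` at the real place and at the primes `p ≤ m`: for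
all points over `ℝ` and all the `ℚ_p` there is a rational point which, after suitable scalings, is
close to them: the coordinates differ by at most `1 / m` at the primes `p ≤ m` and by at most `1 / m`
of their natural sizes at the real place. -/
def WeakApprox (m : ℕ) (H : ℝ) (a : Fin 5 → ℤ) (f : Fin 7 → ℤ) : Prop :=
  ∀ (Z : ∀ (p : ℕ) [Fact p.Prime], Fin 4 → ℚ_[p]) (W : Fin 4 → ℝ),
    (∀ (p : ℕ) [Fact p.Prime], IsPoint a f (Z p)) → IsPoint a f W →
    ∃ z : Fin 4 → ℚ, IsPoint a f z ∧
      (∀ (p : ℕ) [Fact p.Prime], p ≤ m → ∃ α β : ℚ_[p], α ≠ 0 ∧ Normalized p β (Z p) ∧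
        ∀ i, ‖α ^ weight i * (z i : ℚ_[p]) - β ^ weight i * Z p i‖ ≤ 1 / m) ∧
      ∃ α β : ℝ, α ≠ 0 ∧ NormalizedReal H β W ∧
        ∀ i, |α ^ weight i * (z i : ℝ) - β ^ weight i * W i| ≤ size H i / m

/-- There are `m (H) → ∞` and `e (H) → 0` such that for every `H ≥ 1` and **every** binary quartic
form `a` with integral coefficients of absolute value at most `H ^ 4`, all but a proportion `e (H)` of
the binary sextic forms `f` with integral coefficients of absolute value at most `H ^ 6` have the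
property that the surface `y ^ 2 = x ^ 3 + a (u, v) x + f (u, v)` is smooth, so that it is a del Pezzo
surface of degree 1, and satisfies weak approximation with the precision `1 / m (H)` at the real place
and at all primes up to `m (H)`. -/
theorem result :
    ∃ m : ℕ → ℕ, Filter.Tendsto m Filter.atTop Filter.atTop ∧
    ∃ e : ℕ → ℝ, Filter.Tendsto e Filter.atTop (nhds 0) ∧
    ∀ H : ℕ, 1 ≤ H → ∀ a : Fin 5 → ℤ, (∀ i, |a i| ≤ (H : ℤ) ^ 4) →
      (1 - e H) * (({f : Fin 7 → ℤ | ∀ i, |f i| ≤ (H : ℤ) ^ 6} : Set _).ncard : ℝ) ≤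
        (({f : Fin 7 → ℤ | (∀ i, |f i| ≤ (H : ℤ) ^ 6) ∧ Smooth a f ∧ WeakApprox (m H) H a f} :
          Set _).ncard : ℝ) :=
  Pool.Agent.DPO.mainS

end Pool.Agent.Results.MP_12adaf_nt.RandomDelPezzoDegreeOne
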