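import Pool.Agent.H54V.Asm2
import Pool.Agent.H54V.Nl
import Pool.Agent.H54V.Is
import Pool.Agent.H54V.Spc

/-!
# Weak weak approximation for Verra threefolds

Let `F(x, y) = ∑ c_ijkl x_i x_j y_k y_l` be a form of bidegree `(2, 2)` in the variables `x = (x_0, x_1, x_2)` and
`y = (y_0, y_1, y_2)` over a number field `K`. If the threefold `X` with the equation `F = 0` in `ℙ² × ℙ²` is smooth, it is a
Fano variety (a Verra threefold), in particular rationally connected. The two projections `X → ℙ²` are conic
bundles; their discriminant curves have degree six, and the singular fibres are not split. So the fibration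
method is not applicable. We prove for all `F` outside of a proper closed subset of the space of the forms:

* (weak weak approximation) there is a finite set `S` of places of `K` such that for all finite extensions `L` of `K`
  with a point in `X(L)`, the set `X(L)` is dense in the product of the `X(L_w)` over all places `w` of `L` which do not
  lie over a place in `S`;
* for all `L` the closure of `X(L)` in the product of the `X(L_w)` over ALL places `w` is open in this product; it is
  the preimage of the closure of `X(L)` in the product over the finitely many places `w` over `S`.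

(For these `X` one expects `Br X = Br K`, and the conjecture of Colliot-Thélène says that `X(K)` is dense in the product
of all `X(K_v)`.) The conditions on `F` over the algebraic closure of `K` are explicit:

1. `X` is smooth,
2. the `6 × 6` matrix of `F` with respect to the monomials `x_i x_j` and `y_k y_l` is nonsingular, and
3. there are points `y` and `w = y + u` of the plane, such that, for `z = y + σ u` on the line through `y` and `w`, the
   discriminant of the pencil of conics generated by `F(·, y) = 0` and `F(·, z) = 0`, divided by `σ^6`, and the one for `w` and `z`,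
   divided by `(σ - 1)^6`, have together twelve different zeros `σ`.

They are satisfied if a certain nonzero polynomial in the coefficients `c_ijkl` with integral coefficients does not vanish.

Idea of the proof. The closure of `X(K)` is stable under moves of the point `T_v` along the conics of the two
fibrations, independently at all places. So one has to show that for almost all `v` two arbitrary points of
`X(K_v)` are connected by a chain of conics of the two families. By Hensel's lemma this is a question over
the residue field `F_q`, `q` large. Let `y`, `w` be two points of the plane, and `z = y + σ u` as above. Let `n` be the number of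
the rational points of `C_y ∩ C_z`, `r` the number of the rational singular members of the pencil and `s` the
quadratic character of its discriminant, `n', r', s'` the numbers for `w` instead of `y`. Counting the points of the
members of the pencil we find that, if for no `z` both `n` and `n'` are positive, then
`(r - n) + (r' - n') ≥ (1 + s)(1 + s') / 2` for all `σ`. But the sum over `σ` of the left side is at most `O(√q)` (each point of
`C_y` is on one other `C_z`, and the sum of `r` counts points of a plane cubic curve), while the sum of the right side is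
at least `q / 2 - O(√q)` by Weil's bound for character sums. So for some `z` there are rational points in `C_y ∩ C_z` and
`C_w ∩ C_z`, which connect the conic over `y` with the conic over `w`.
-/

set_option autoImplicit false

namespace Pool.Agent.Results.MP_12adaf_nt.VerraThreefolds

open Pool.Agent.R70.BT Pool.Agent.H54V Topology NumberField
open Pool.Agent.H54V.NF (Place Comp emb)

/-- `(x, y)` represents a point of `X`: the vectors `x` and `y` are not zero and `F(x, y) = 0`. -/
def IsPoint {L : Type} [Field L] (c : Cf L) (P : (Fin 3 → L) × (Fin 3 → L)) : Prop :=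
  P.1 ≠ 0 ∧ P.2 ≠ 0 ∧ form c P.1 P.2 = 0

/-- The conditions on the form, over an algebraically closed field: `X` is smooth (the polar forms `polX` and `polY`
are the directional derivatives of `F` with respect to `x` and `y`); the linear map from the symmetric tensors in `x` to the
quadratic forms in `y` is injective; and the condition on the pencils of conics. -/
structure General {M : Type} [Field M] (c : Cf M) : Prop where
  smooth : ∀ x y : Fin 3 → M, IsPoint c (x, y) → (∃ w, polX c y x w ≠ 0) ∨ ∃ w, polY c x y w ≠ 0
  nonsingular : Inj c
  twelve : ∃ y u, Good (gram c y) (gramP c y u) (gram c u)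

section

variable {K : Type} [Field K] [NumberField K] {ι : Type}

/-- The points `T i` of `X` over the completions of `K` at the places `s i`. -/
def IsSystem (s : ι → Place K) (c : Cf K)
    (T : ∀ i, (Fin 3 → Comp K (s i)) × (Fin 3 → Comp K (s i))) : Prop :=
  ∀ i, IsPoint (fun j k l m => emb K (s i) (c j k l m)) (T i)

/-- The systems of vectors which represent the same point of `X(K)` at all places `s i`. -/
def rational (s : ι → Place K) (c : Cf K) : Set (∀ i, (Fin 3 → Comp K (s i)) × (Fin 3 → Comp K (s i))) :=
  {T | ∃ x y : Fin 3 → K, IsPoint c (x, y) ∧ ∀ i, ∃ a b : Comp K (s i), a ≠ 0 ∧ b ≠ 0 ∧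
    T i = (fun j => a * emb K (s i) (x j), fun j => b * emb K (s i) (y j))}

/-- `T` is in the closure of `X(K)` in the product of the `X(K_v)`, `v = s i` (product topology). -/
def InClosure (s : ι → Place K) (c : Cf K)
    (T : ∀ i, (Fin 3 → Comp K (s i)) × (Fin 3 → Comp K (s i))) : Prop :=
  T ∈ closure (rational s c)

/-- The conclusion, for a finite set `S` of places: a system `T` of points over all completions is in the closure of
`X(K)` if and only if its components at the places of `S` are in the closure of `X(K)`; the closure of `X(K)` in the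
product over all places is open; and if `X(K)` is not empty, then `X(K)` is dense in the product of the `X(K_v)` over
all places `v` not in `S`. -/
def WeakWeakApproximation (S : Finset (Place K)) (c : Cf K) : Prop :=
  (∀ T, IsSystem id c T → (InClosure id c T ↔ InClosure (Subtype.val : S → Place K) c fun v => T v)) ∧
  (∀ T, IsSystem id c T → InClosure id c T → ∃ U ∈ 𝓝 T, ∀ T' ∈ U, IsSystem id c T' → InClosure id c T') ∧
  ((∃ P, IsPoint c P) →
    ∀ T, IsSystem (Subtype.val : {v // v ∉ S} → Place K) c T → InClosure Subtype.val c T)

theorem dense_prod (s : ι → Place K) (hs : Function.Injective s) :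
    DenseRange fun (a : K) (i : ι) => emb K (s i) a := by
  classical
  intro x
  rw [mem_closure_iff]
  intro U hU hx
  obtain ⟨J, u, hu, hJ⟩ := isOpen_pi_iff.1 hU x hx
  have hd := Pool.Agent.H54V.NF.dense_all K (J.image s)
  let φ : ∀ v : J.image s, {i : ι // i ∈ J ∧ s i = v} := fun v => by
    have := Finset.mem_image.1 v.2
    exact ⟨this.choose, this.choose_spec⟩
  let x' : ∀ v : J.image s, Comp K v := fun v => (φ v).2.2 ▸ x (φ v).1
  have hx' : ∀ (i : ι) (hi : i ∈ J), x' ⟨s i, Finset.mem_image_of_mem s hi⟩ = x i := by
    intro i hi
    have h1 : (φ ⟨s i, Finset.mem_image_of_mem s hi⟩).1 = i := hs (φ _).2.2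
    have h2 : ∀ (j : ι) (h : s j = s i), j = i → (h ▸ x j : Comp K (s i)) = x i := by
      intro j h hj
      subst hj
      rfl
    exact h2 _ _ h1
  let W : Set (∀ v : J.image s, Comp K v) :=
    ⋂ i : {i : ι // i ∈ J}, (fun f => f ⟨s i.1, Finset.mem_image_of_mem s i.2⟩) ⁻¹' (u i.1)
  have hW : IsOpen W := by
    refine isOpen_iInter_of_finite fun i => ?_
    exact (hu i.1 i.2).1.preimage
      (continuous_apply (A := fun v : J.image s => Comp K v) ⟨s i.1, Finset.mem_image_of_mem s i.2⟩)
  have hxW : x' ∈ W := by
    refine Set.mem_iInter.2 fun i => ?_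
    change x' ⟨s i.1, Finset.mem_image_of_mem s i.2⟩ ∈ u i.1
    rw [hx' i.1 i.2]
    exact (hu i.1 i.2).2
  obtain ⟨_, hyW, a, rfl⟩ := mem_closure_iff.1 (hd x') W hW hxW
  refine ⟨_, hJ ?_, a, rfl⟩
  intro i hi
  exact Set.mem_iInter.1 hyW ⟨i, hi⟩

theorem rational_subset (s : ι → Place K) (hs : Function.Injective s) (c : Cf K) :
    rational s c ⊆ closure (pts c fun i => emb K (s i)) := by
  rintro T ⟨x, y, ⟨-, -, hxy⟩, hT⟩
  choose a b ha hb hT using hT
  have hd := (dense_prod s hs).prodMap (dense_prod s hs)
  let Φ : (∀ i, Comp K (s i)) × (∀ i, Comp K (s i)) → ∀ i, (Fin 3 → Comp K (s i)) × (Fin 3 → Comp K (s i)) :=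
    fun p i => (fun j => p.1 i * emb K (s i) (x j), fun j => p.2 i * emb K (s i) (y j))
  have hc : Continuous Φ := by
    refine continuous_pi fun i => ?_
    refine Continuous.prodMk ?_ ?_
    · refine continuous_pi fun j => ?_
      exact ((continuous_apply i).comp continuous_fst).mul continuous_const
    · refine continuous_pi fun j => ?_
      exact ((continuous_apply i).comp continuous_snd).mul continuous_const
  have h1 : T = Φ (a, b) := funext fun i => hT i
  rw [h1]
  refine map_mem_closure hc (hd (a, b)) ?_
  rintro _ ⟨⟨α, β⟩, rfl⟩
  refine ⟨fun j => α * x j, fun j => β * y j, ?_, ?_⟩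
  · have e : form c (fun j => α * x j) (fun j => β * y j) = α ^ 2 * β ^ 2 * form c x y := by
      simp only [form, Finset.mul_sum]
      refine Finset.sum_congr rfl fun i _ => Finset.sum_congr rfl fun j _ =>
        Finset.sum_congr rfl fun k _ => Finset.sum_congr rfl fun l _ => ?_
      ring
    have hxy' : form c x y = 0 := hxy
    rw [e, hxy', mul_zero]
  · funext i
    refine Prod.ext ?_ ?_
    · funext j
      exact (map_mul (emb K (s i)) α (x j)).symm
    · funext j
      exact (map_mul (emb K (s i)) β (y j)).symm

theorem inClosure_iff (s : ι → Place K) (hs : Function.Injective s) (c : Cf K) (i₀ : ι)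
    (T : ∀ i, (Fin 3 → Comp K (s i)) × (Fin 3 → Comp K (s i))) (hT : IsSystem s c T) :
    InClosure s c T ↔ T ∈ closure (pts c fun i => emb K (s i)) := by
  refine ⟨fun h => ?_, fun h => ?_⟩
  · exact closure_minimal (rational_subset s hs c) isClosed_closure h
  · let U : Set (∀ i, (Fin 3 → Comp K (s i)) × (Fin 3 → Comp K (s i))) :=
      {S | (S i₀).1 ≠ 0 ∧ (S i₀).2 ≠ 0}
    have hU : IsOpen U := by
      refine IsOpen.inter ?_ ?_
      · exact isOpen_ne.preimage (continuous_fst.comp (continuous_apply i₀))
      · exact isOpen_ne.preimage (continuous_snd.comp (continuous_apply i₀))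
    have hTU : T ∈ U := ⟨(hT i₀).1, (hT i₀).2.1⟩
    refine closure_mono ?_ (hU.inter_closure ⟨hTU, h⟩)
    rintro _ ⟨hS, x, y, hxy, rfl⟩
    have hz : ∀ z : Fin 3 → K, (fun j => emb K (s i₀) (z j)) ≠ 0 → z ≠ 0 := by
      rintro z hz rfl
      apply hz
      funext j
      exact map_zero _
    refine ⟨x, y, ⟨hz x hS.1, hz y hS.2, hxy⟩, fun i => ⟨1, 1, one_ne_zero, one_ne_zero, ?_⟩⟩
    simp only [one_mul]

theorem wwa_main (c : Cf K) (S : Finset (Place K)) (hS : S.Nonempty)
    (h : ∀ T, IsSys c T →
      (T ∈ closure (pts c (emb K)) ↔ (fun v : S => T v) ∈ closure (pts c fun v : S => emb K v)) ∧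
      (T ∈ closure (pts c (emb K)) → ∃ U ∈ 𝓝 T, ∀ T' ∈ U, IsSys c T' →
        T' ∈ closure (pts c (emb K)))) : WeakWeakApproximation S c := by
  obtain ⟨v₀, hv₀⟩ := hS
  refine ⟨fun T hT => ?_, fun T hT hTc => ?_, ?_⟩
  · rw [inClosure_iff id Function.injective_id c v₀ T hT,
      inClosure_iff Subtype.val Subtype.val_injective c ⟨v₀, hv₀⟩ _ fun v => hT v]
    exact (h T hT).1
  · rw [inClosure_iff id Function.injective_id c v₀ T hT] at hTc
    obtain ⟨U, hU, hUc⟩ := (h T hT).2 hTc
    refine ⟨U, hU, fun T' hT' hs => ?_⟩
    rw [inClosure_iff id Function.injective_id c v₀ T' hs]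
    exact hUc T' hT' hs
  · rintro ⟨⟨x, y⟩, hx, hy, hxy⟩ T hT
    rcases isEmpty_or_nonempty {v : Place K // v ∉ S} with he | ⟨⟨i₀⟩⟩
    · refine subset_closure ⟨x, y, ⟨hx, hy, hxy⟩, fun i => ?_⟩
      exact (he.false i).elim
    · rw [inClosure_iff Subtype.val Subtype.val_injective c i₀ T hT]
      exact wwa_of c S (fun T hT => (h T hT).1.2) x y hx hy hxy {v | v ∉ S} (fun v hv => hv) T hT

end

/-- (1) Let `F` be a form of bidegree `(2, 2)` over a number field `K`, which is general over the algebraic closure of
`K`, and `X` the Verra threefold with the equation `F = 0`. There is a finite set `S` of places of `K` such that for all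
finite extensions `L` of `K` weak weak approximation holds for `X` over `L` outside of a set `S'` of places over `S`: the
closure of `X(L)` in the product of the `X(L_w)` over all places is open and the preimage of its projection to the places
in `S'`, and if `X(L)` is not empty it is dense in the product of the `X(L_w)`, `w` not in `S'`.

(2) The condition is satisfied for all forms outside of a proper closed subset, which is defined over the integers. -/
theorem result :
    (∀ (K : Type) [Field K] [NumberField K] (c : Cf K),
      General (fun i j k l => algebraMap K (AlgebraicClosure K) (c i j k l)) →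
      ∃ S : Finset (Place K), ∀ (L : Type) [Field L] [NumberField L] [Algebra K L],
        ∃ S' : Finset (Place L), (∀ w ∈ S', ∃ v ∈ S, LiesOver w v) ∧
          WeakWeakApproximation S' (fun i j k l => algebraMap K L (c i j k l))) ∧
    ∃ D : MvPolynomial (Fin 3 × Fin 3 × Fin 3 × Fin 3) ℤ, D ≠ 0 ∧
      ∀ (K : Type) [Field K] [NumberField K] (c : Cf K),
        MvPolynomial.eval₂ (Int.castRingHom K) (fun p => c p.1 p.2.1 p.2.2.1 p.2.2.2) D ≠ 0 →
        General (fun i j k l => algebraMap K (AlgebraicClosure K) (c i j k l)) := by
  refine ⟨fun K _ _ c hg => ?_, ?_⟩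
  · have h2 : (2 : AlgebraicClosure K) ≠ 0 := by
      have := (_root_.map_ne_zero (algebraMap K (AlgebraicClosure K))).2 (two_ne_zero (α := K))
      rwa [map_ofNat] at this
    set c' : Cf (AlgebraicClosure K) := fun i j k l => algebraMap K (AlgebraicClosure K) (c i j k l)
      with hc'
    have hsm : Smo c' := fun x y hx hy h => hg.smooth x y ⟨hx, hy, h⟩
    have hsm' : Smo (sw c') := by
      intro x y hx hy h
      rw [form_sw] at h
      rcases hsm y x hy hx h with ⟨w, hw⟩ | ⟨w, hw⟩
      · refine Or.inr ⟨w, ?_⟩
        simp only [polX, polY, form_sw] at hw ⊢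
        exact hw
      · refine Or.inl ⟨w, ?_⟩
        simp only [polX, polY, form_sw] at hw ⊢
        exact hw
    have hG : Gen c' := ⟨hsm, hg.nonsingular, Pool.Agent.H54V.is _ h2 _ hg.nonsingular, nl _ h2 _ hsm,
      nl _ h2 _ hsm', hg.twelve⟩
    obtain ⟨S, hS⟩ := main_ext c hG
    refine ⟨S, fun L _ _ _ => ?_⟩
    obtain ⟨S', hne, hover, h⟩ := hS L
    exact ⟨S', hover, wwa_main _ S' hne h⟩
  · obtain ⟨D, hD, h⟩ := exists_poly nl Pool.Agent.H54V.is spc
    refine ⟨D, hD, fun K _ _ c hc => ?_⟩
    have hinf : Infinite (AlgebraicClosure K) :=
      Infinite.of_injective _ (algebraMap K (AlgebraicClosure K)).injective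
    have h1 : MvPolynomial.eval₂ (Int.castRingHom (AlgebraicClosure K))
        (fun p : Fin 3 × Fin 3 × Fin 3 × Fin 3 => algebraMap K (AlgebraicClosure K)
          (c p.1 p.2.1 p.2.2.1 p.2.2.2)) D =
        algebraMap K (AlgebraicClosure K) (MvPolynomial.eval₂ (Int.castRingHom K)
          (fun p => c p.1 p.2.1 p.2.2.1 p.2.2.2) D) := by
      rw [MvPolynomial.hom_eval₂]
      congr 1
    have h2 := h (AlgebraicClosure K) (fun i j k l => algebraMap K (AlgebraicClosure K) (c i j k l))
      (by
        rw [h1]
        exact (_root_.map_ne_zero _).2 hc)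
    exact ⟨fun x y hp => h2.sm x y hp.1 hp.2.1 hp.2.2, h2.ix, h2.gd⟩

end Pool.Agent.Results.MP_12adaf_nt.VerraThreefolds
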